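import Pool.Agent.Helper49.SQ.PTL
import Pool.Graph.R_seed8.W559.Mg.A1

/-!
# Etale coordinates on Laurent extensions
-/

set_option autoImplicit false
set_option linter.unusedSectionVars false
set_option linter.unusedVariables false

open MvPolynomial TensorProduct

namespace Pool.Agent.Helper50.SQ

open Pool.Agent.W559.Mg Pool.Agent.Helper49.SQ.PTL

section laurent

variable {k K : Type} [Field k] [Field K] [Algebra k K]

/-- Evaluation of polynomials with coefficients in `T` at `s`. -/
noncomputable def adT (T : Subalgebra k K) (s : K) : Polynomial T →ₐ[k] K :=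
  (Polynomial.aeval s : Polynomial T →ₐ[T] K).restrictScalars k

variable (T : Subalgebra k K) (s : K)

lemma adT_C (a : T) : adT T s (Polynomial.C a) = a := by
  change Polynomial.aeval s (Polynomial.C a) = _
  rw [Polynomial.aeval_C]
  rfl

lemma adT_X : adT T s Polynomial.X = s := by
  change Polynomial.aeval s Polynomial.X = _
  rw [Polynomial.aeval_X]

lemma s_mem : s ∈ (adT T s).range := ⟨Polynomial.X, adT_X T s⟩

lemma T_le : T ≤ (adT T s).range := fun a ha => ⟨Polynomial.C ⟨a, ha⟩, adT_C T s _⟩

/-- The range is generated by `T` and `s`. -/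
lemma adT_le {C : Subalgebra k K} (hT : T ≤ C) (hs : s ∈ C) : (adT T s).range ≤ C := by
  rintro _ ⟨p, rfl⟩
  induction p using Polynomial.induction_on' with
  | add p q hp hq => 
    have : (adT T s).toRingHom (p + q) = adT T s p + adT T s q := map_add _ _ _
    rw [this]
    exact C.add_mem hp hq
  | monomial n a =>
    have : (adT T s).toRingHom (Polynomial.monomial n a) = a * s ^ n := by
      change adT T s (Polynomial.monomial n a) = _
      rw [← Polynomial.C_mul_X_pow_eq_monomial, map_mul, map_pow, adT_C, adT_X]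
    rw [this]
    exact C.mul_mem (hT a.2) (C.pow_mem hs n)

/-- The Laurent extension. -/
noncomputable def Lau : Subalgebra k K := lc (adT T s).range s (s_mem T s)

lemma T_le_Lau : T ≤ Lau T s := (T_le T s).trans (le_lc _ _ _)

lemma s_mem_Lau : s ∈ Lau T s := le_lc _ _ _ (s_mem T s)

variable {s} (hs : Transcendental T s)

include hs in
lemma adT_inj : Function.Injective (adT T s) := transcendental_iff_injective.1 hs

include hs in
lemma s_ne : s ≠ 0 := by
  intro h
  have h1 : adT T s Polynomial.X = adT T s 0 := by rw [adT_X, map_zero, h]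
  exact Polynomial.X_ne_zero (adT_inj T hs h1)

include hs in
lemma sinv_mem_Lau : s⁻¹ ∈ Lau T s :=
  inv_mem_lc _ _ _ _ (mul_inv_cancel₀ (s_ne T hs))

include hs in
/-- The universal property of the Laurent extension. -/
theorem laurent_lift {S : Type} [CommRing S] [Algebra k S] (h : T →ₐ[k] S) (u : S)
    (hu : IsUnit u) : ∃ H : Lau T s →ₐ[k] S, (∀ a : T, H ⟨a, T_le_Lau T s a.2⟩ = h a) ∧
      H ⟨s, s_mem_Lau T s⟩ = u := by
  let R0 := (adT T s).range
  let C := Lau T s
  let E : Polynomial T ≃ₐ[k] R0 := AlgEquiv.ofInjective (adT T s) (adT_inj T hs)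
  let ψ : Polynomial T →ₐ[k] S :=
    { Polynomial.eval₂RingHom h.toRingHom u with
      commutes' := by
        intro r
        change Polynomial.eval₂ h.toRingHom u (Polynomial.C (algebraMap k T r)) = _
        rw [Polynomial.eval₂_C]
        exact h.commutes r }
  have hψC : ∀ a : T, ψ (Polynomial.C a) = h a := fun a => by
    change Polynomial.eval₂ h.toRingHom u (Polynomial.C a) = _
    rw [Polynomial.eval₂_C]
    rfl
  have hψX : ψ Polynomial.X = u := by
    change Polynomial.eval₂ h.toRingHom u Polynomial.X = _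
    rw [Polynomial.eval₂_X]
  let g : R0 →ₐ[k] S := ψ.comp (E.symm : R0 →ₐ[k] Polynomial T)
  have hgE : ∀ p : Polynomial T, g (E p) = ψ p := fun p => by
    change ψ (E.symm (E p)) = _
    rw [E.symm_apply_apply]
  let _ : Algebra R0 C := (Subalgebra.inclusion (le_lc R0 s (s_mem T s))).toRingHom.toAlgebra
  have _ : IsScalarTower k R0 C := IsScalarTower.of_algebraMap_eq fun r => rfl
  have hloc : IsLocalization.Away (⟨s, s_mem T s⟩ : R0) C :=
    isLoc_lc R0 (s_mem T s) (Ne.isUnit (s_ne T hs))
  have hEX : E Polynomial.X = ⟨s, s_mem T s⟩ := Subtype.ext (adT_X T s)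
  have hEC : ∀ a : T, E (Polynomial.C a) = ⟨a, T_le T s a.2⟩ := fun a => Subtype.ext (adT_C T s a)
  have hg : ∀ y : Submonoid.powers (⟨s, s_mem T s⟩ : R0), IsUnit (g y) := by
    rintro ⟨_, n, rfl⟩
    change IsUnit (g ((⟨s, s_mem T s⟩ : R0) ^ n))
    rw [map_pow, ← hEX, hgE, hψX]
    exact hu.pow n
  let H : C →ₐ[k] S := IsLocalization.liftAlgHom (M := Submonoid.powers (⟨s, s_mem T s⟩ : R0))
    (S := C) (f := g) hg
  have hH : ∀ r : R0, H (algebraMap R0 C r) = g r := fun r => IsLocalization.lift_eq hg r
  refine ⟨H, fun a => ?_, ?_⟩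
  · have h1 := hH ⟨a, T_le T s a.2⟩
    rw [← hEC, hgE, hψC] at h1
    rw [hEC] at h1
    exact h1
  · have h1 := hH ⟨s, s_mem T s⟩
    rw [← hEX, hgE, hψX] at h1
    rw [hEX] at h1
    exact h1

include hs in
/-- Uniqueness. -/
theorem laurent_ext {S : Type} [CommRing S] [Algebra k S] (H H' : Lau T s →ₐ[k] S)
    (h1 : ∀ a : T, H ⟨a, T_le_Lau T s a.2⟩ = H' ⟨a, T_le_Lau T s a.2⟩)
    (h2 : H ⟨s, s_mem_Lau T s⟩ = H' ⟨s, s_mem_Lau T s⟩) : H = H' := by
  let Y : Subalgebra k K :=
    { carrier := {x | ∃ hx : x ∈ Lau T s, H ⟨x, hx⟩ = H' ⟨x, hx⟩}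
      mul_mem' := by
        rintro a b ⟨ha, ha'⟩ ⟨hb, hb'⟩
        refine ⟨(Lau T s).mul_mem ha hb, ?_⟩
        have h3 : (⟨a * b, (Lau T s).mul_mem ha hb⟩ : Lau T s) = ⟨a, ha⟩ * ⟨b, hb⟩ := rfl
        rw [h3, map_mul, map_mul, ha', hb']
      add_mem' := by
        rintro a b ⟨ha, ha'⟩ ⟨hb, hb'⟩
        refine ⟨(Lau T s).add_mem ha hb, ?_⟩
        have h3 : (⟨a + b, (Lau T s).add_mem ha hb⟩ : Lau T s) = ⟨a, ha⟩ + ⟨b, hb⟩ := rfl
        rw [h3, map_add, map_add, ha', hb']
      algebraMap_mem' := by
        intro r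
        refine ⟨(Lau T s).algebraMap_mem r, ?_⟩
        have h3 : (⟨algebraMap k K r, (Lau T s).algebraMap_mem r⟩ : Lau T s) =
          algebraMap k (Lau T s) r := rfl
        rw [h3, AlgHom.commutes, AlgHom.commutes] }
  have hTY : T ≤ Y := fun a ha => ⟨T_le_Lau T s ha, h1 ⟨a, ha⟩⟩
  have hsY : s ∈ Y := ⟨s_mem_Lau T s, h2⟩
  have hR : (adT T s).range ≤ Y := adT_le T s hTY hsY
  have hsiY : s⁻¹ ∈ Y := by
    refine ⟨sinv_mem_Lau T hs, ?_⟩
    have h3 : (⟨s, s_mem_Lau T s⟩ : Lau T s) * ⟨s⁻¹, sinv_mem_Lau T hs⟩ = 1 :=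
      Subtype.ext (mul_inv_cancel₀ (s_ne T hs))
    have h4 := congrArg H h3
    have h5 := congrArg H' h3
    rw [map_mul, map_one] at h4 h5
    rw [h2] at h4
    exact (IsUnit.of_mul_eq_one _ h5).mul_left_cancel (h4.trans h5.symm)
  have hL : Lau T s ≤ Y := lc_le _ (mul_inv_cancel₀ (s_ne T hs)) hR hsiY
  apply AlgHom.ext
  intro x
  obtain ⟨hx, h⟩ := hL x.2
  exact h

include hs in
/-- The Laurent extension of an algebra with etale coordinates. -/
theorem laurent_etale (hft : Algebra.FiniteType k T) {κ : Type} [Finite κ] (x : κ → T)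
    (hx : ((aeval x : MvPolynomial κ k →ₐ[k] T).toRingHom).Etale) (y : Option κ → Lau T s)
    (hy0 : (y none : K) = s) (hy : ∀ c, (y (some c) : K) = s * x c) :
    ((aeval y : MvPolynomial (Option κ) k →ₐ[k] Lau T s).toRingHom).Etale := by
  classical
  let B := Lau T s
  let P := MvPolynomial (Option κ) k
  let _ : Algebra P B := (aeval y : MvPolynomial (Option κ) k →ₐ[k] B).toRingHom.toAlgebra
  have hPB : ∀ q : P, algebraMap P B q = aeval y q := fun q => rfl
  have _ : IsScalarTower k P B := IsScalarTower.of_algebraMap_eq fun r => by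
    rw [hPB, MvPolynomial.algebraMap_eq, aeval_C]
  have hy0' : y none = ⟨s, s_mem_Lau T s⟩ := Subtype.ext hy0
  have hy' : ∀ c, y (some c) = ⟨s, s_mem_Lau T s⟩ * ⟨x c, T_le_Lau T s (x c).2⟩ := fun c =>
    Subtype.ext (hy c)
  have hsu : IsUnit (⟨s, s_mem_Lau T s⟩ : B) :=
    IsUnit.of_mul_eq_one ⟨s⁻¹, sinv_mem_Lau T hs⟩ (Subtype.ext (mul_inv_cancel₀ (s_ne T hs)))
  let inT : T →ₐ[k] B := Subalgebra.inclusion (T_le_Lau T s)
  have hftB : Algebra.FiniteType k B := by
    have hft0 : Algebra.FiniteType k (adT T s).range := by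
      have h1 : Algebra.FiniteType k (Polynomial T) :=
        Algebra.FiniteType.trans (S := T) hft inferInstance
      exact Algebra.FiniteType.of_surjective (adT T s).rangeRestrict
        (adT T s).rangeRestrict_surjective
    let _ : Algebra (adT T s).range B :=
      (Subalgebra.inclusion (le_lc (adT T s).range s (s_mem T s))).toRingHom.toAlgebra
    have _ : IsScalarTower k (adT T s).range B := IsScalarTower.of_algebraMap_eq fun r => rfl
    have hloc : IsLocalization.Away (⟨s, s_mem T s⟩ : (adT T s).range) B :=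
      isLoc_lc _ (s_mem T s) (Ne.isUnit (s_ne T hs))
    have h1 : Algebra.FiniteType (adT T s).range B :=
      IsLocalization.finiteType_of_monoid_fg (Submonoid.powers (⟨s, s_mem T s⟩ :
        (adT T s).range)) _
    exact Algebra.FiniteType.trans hft0 h1
  have hfp : Algebra.FinitePresentation P B := by
    have _ : Algebra.FiniteType P B := Algebra.FiniteType.of_restrictScalars_finiteType k P B
    exact Algebra.FinitePresentation.of_finiteType.1 inferInstance
  have hfe : Algebra.FormallyEtale P B := by
    rw [Algebra.FormallyEtale.iff_comp_bijective]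
    intro S _ _ I hI
    let _ : Algebra k S := ((algebraMap P S).comp (algebraMap k P)).toAlgebra
    have _ : IsScalarTower k P S := IsScalarTower.of_algebraMap_eq fun r => rfl
    let c : Option κ → S := fun i => algebraMap P S (X i)
    constructor
    · intro h h' hh
      have hmk : ∀ x, Ideal.Quotient.mk I (h x) = Ideal.Quotient.mk I (h' x) := fun x =>
        congrArg (fun φ : B →ₐ[P] S ⧸ I => φ x) hh
      have hX : ∀ (h : B →ₐ[P] S) (i : Option κ), h (y i) = c i := by
        intro h i
        have h1 := h.commutes (X i)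
        rw [hPB, aeval_X] at h1
        exact h1
      let hk : B →ₐ[k] S := h.restrictScalars k
      let hk' : B →ₐ[k] S := h'.restrictScalars k
      have hsk : hk ⟨s, s_mem_Lau T s⟩ = c none := by
        rw [← hy0']
        exact hX h none
      have hsk' : hk' ⟨s, s_mem_Lau T s⟩ = c none := by
        rw [← hy0']
        exact hX h' none
      have hcu : IsUnit (c none) := by
        rw [← hsk]
        exact hsu.map hk
      obtain ⟨w, hw⟩ := hcu
      have hxk : ∀ i, hk (inT (x i)) = ↑w⁻¹ * c (some i) := by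
        intro i
        have h1 := hX h (some i)
        rw [hy'] at h1
        have h2 : c (some i) = hk ⟨s, s_mem_Lau T s⟩ * hk (inT (x i)) := by
          rw [← h1]
          exact map_mul h _ _
        rw [h2, hsk, ← hw, Units.inv_mul_cancel_left]
      have hxk' : ∀ i, hk' (inT (x i)) = ↑w⁻¹ * c (some i) := by
        intro i
        have h1 := hX h' (some i)
        rw [hy'] at h1
        have h2 : c (some i) = hk' ⟨s, s_mem_Lau T s⟩ * hk' (inT (x i)) := by
          rw [← h1]
          exact map_mul h' _ _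
        rw [h2, hsk', ← hw, Units.inv_mul_cancel_left]
      have h2 : hk = hk' := by
        apply laurent_ext T hs
        · have h1 := (exists_unique_lift' hx I hI (fun l => ((w⁻¹ : Sˣ) : S) * c (some l))).2 (hk.comp inT)
            (hk'.comp inT) (fun l => hxk l) (fun l => hxk' l) (fun y => hmk _)
          intro a
          exact congrArg (fun φ : T →ₐ[k] S => φ a) h1
        · rw [hsk, hsk']
      apply AlgHom.ext
      intro x
      exact congrArg (fun φ : B →ₐ[k] S => φ x) h2
    · intro g
      have hgX : ∀ (i : Option κ), g (y i) = Ideal.Quotient.mk I (c i) := by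
        intro i
        have h1 := g.commutes (X i)
        rw [hPB, aeval_X] at h1
        exact h1
      have _ : IsScalarTower k P (S ⧸ I) := IsScalarTower.of_algebraMap_eq fun r => rfl
      let gk : B →ₐ[k] S ⧸ I := g.restrictScalars k
      have hgs : gk ⟨s, s_mem_Lau T s⟩ = Ideal.Quotient.mk I (c none) := by
        rw [← hy0']
        exact hgX none
      have hcu : IsUnit (c none) := by
        have h1 : IsUnit (Ideal.Quotient.mk I (c none)) := by
          rw [← hgs]
          exact hsu.map gk
        obtain ⟨b, hb⟩ := h1.exists_right_inv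
        obtain ⟨b', rfl⟩ := Ideal.Quotient.mk_surjective b
        rw [← map_mul, ← map_one (Ideal.Quotient.mk I), Ideal.Quotient.mk_eq_mk_iff_sub_mem] at hb
        have h2 : (c none * b' - 1) ^ 2 = 0 := by
          have h3 : (c none * b' - 1) ^ 2 ∈ I ^ 2 := Ideal.pow_mem_pow hb 2
          rw [hI] at h3
          exact Ideal.mem_bot.1 h3
        refine IsUnit.of_mul_eq_one (b' * (2 - c none * b')) ?_
        linear_combination -h2
      obtain ⟨w, hw⟩ := hcu
      have hxk : ∀ i, gk (inT (x i)) = Ideal.Quotient.mk I (↑w⁻¹ * c (some i)) := by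
        intro i
        have h1 := hgX (some i)
        rw [hy'] at h1
        have h2 : Ideal.Quotient.mk I (c (some i)) =
            Ideal.Quotient.mk I (c none) * gk (inT (x i)) := by
          rw [← h1, ← hgs]
          exact map_mul g _ _
        rw [map_mul, h2, ← hw, ← mul_assoc, ← map_mul, Units.inv_mul, map_one, one_mul]
      obtain ⟨h0, hh0, hh0'⟩ := (exists_unique_lift' hx I hI
        (fun l => ((w⁻¹ : Sˣ) : S) * c (some l))).1 (gk.comp inT) (fun l => hxk l)
      obtain ⟨H, hH, hHs⟩ := laurent_lift T hs h0 (c none) ⟨w, hw⟩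
      have hHy : ∀ i, H (y i) = c i := by
        intro i
        rcases i with _ | i
        · rw [hy0', hHs]
        · rw [hy', map_mul, hHs, hH, hh0, ← hw, Units.mul_inv_cancel_left]
      have hHC : ∀ q : P, H (algebraMap P B q) = algebraMap P S q := by
        intro q
        rw [hPB]
        induction q using MvPolynomial.induction_on with
        | C r =>
          rw [aeval_C, AlgHom.commutes]
          rfl
        | add p q hp hq => rw [map_add, map_add, hp, hq, map_add]
        | mul_X p i hp =>
          rw [map_mul, map_mul, hp, aeval_X, hHy, map_mul]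
      refine ⟨{ toRingHom := H.toRingHom, commutes' := hHC }, ?_⟩
      have h3 : (Ideal.Quotient.mkₐ k I).comp H = gk := by
        apply laurent_ext T hs
        · intro a
          rw [AlgHom.comp_apply, hH]
          exact hh0' a
        · rw [AlgHom.comp_apply, hHs, hgs]
          rfl
      apply AlgHom.ext
      intro y
      exact congrArg (fun φ : B →ₐ[k] S ⧸ I => φ y) h3
  have hE : Algebra.Etale P B := { formallyEtale := hfe, finitePresentation := hfp }
  exact hE

end laurent

end Pool.Agent.Helper50.SQ
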